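import Pool.Agent.Helper2.CF.Defs

/-!
Block CF-2: the Hermitian form of an irreducible representation of a semisimple Lie algebra, for
which the simple root vectors `es i` and `fs i` are adjoint.
-/

open Module LieModule LieAlgebra LieAlgebra.IsKilling

namespace CF

open MTP MTP.MF

section act

variable {V : Type*} [AddCommGroup V] [Module ℂ V]
  {L : Type*} [LieRing L] [LieAlgebra ℂ L] [LieRingModule L V] [LieModule ℂ L V]

/-- `x` acts on the first component, `y` on the argument of the second one. -/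
private def ac (V : Type*) [AddCommGroup V] [Module ℂ V] [LieRingModule L V] [LieModule ℂ L V]
    (x y : L) : (V × (V →ₗ⋆[ℂ] ℂ)) →ₗ[ℂ] (V × (V →ₗ⋆[ℂ] ℂ)) where
  toFun p := (⁅x, p.1⁆,
    { toFun := fun v => p.2 ⁅y, v⁆
      map_add' := by
        intro v w
        rw [lie_add, map_add]
      map_smul' := by
        intro c v
        rw [lie_smul, LinearMap.map_smulₛₗ] })
  map_add' p q := by
    apply Prod.ext
    · exact lie_add x p.1 q.1
    · apply LinearMap.ext
      intro v
      rfl
  map_smul' c p := by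
    apply Prod.ext
    · exact lie_smul c x p.1
    · apply LinearMap.ext
      intro v
      rfl

private lemma ac_fst (x y : L) (p : V × (V →ₗ⋆[ℂ] ℂ)) : (ac V x y p).1 = ⁅x, p.1⁆ := rfl

private lemma ac_snd (x y : L) (p : V × (V →ₗ⋆[ℂ] ℂ)) (v : V) :
    (ac V x y p).2 v = p.2 ⁅y, v⁆ := rfl

private lemma ac_comm (x y x' y' : L) (p : V × (V →ₗ⋆[ℂ] ℂ)) :
    ac V x y (ac V x' y' p) = ac V x' y' (ac V x y p) + ac V ⁅x, x'⁆ ⁅y', y⁆ p := by
  apply Prod.ext
  · rw [Prod.fst_add, ac_fst, ac_fst, ac_fst, ac_fst, ac_fst, lie_lie]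
    abel
  · apply LinearMap.ext
    intro v
    rw [Prod.snd_add, LinearMap.add_apply, ac_snd, ac_snd, ac_snd, ac_snd, ac_snd, lie_lie,
      map_sub]
    abel

private lemma ac_zero (p : V × (V →ₗ⋆[ℂ] ℂ)) : ac V (0 : L) (0 : L) p = 0 := by
  apply Prod.ext
  · rw [ac_fst, zero_lie]
    rfl
  · apply LinearMap.ext
    intro v
    rw [ac_snd, zero_lie, map_zero]
    rfl

private lemma ac_int (a : ℤ) (x y : L) (p : V × (V →ₗ⋆[ℂ] ℂ)) :
    ac V ((a : ℂ) • x) ((a : ℂ) • y) p = (a : ℂ) • ac V x y p := by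
  apply Prod.ext
  · rw [ac_fst, smul_lie]
    rfl
  · apply LinearMap.ext
    intro v
    rw [ac_snd, smul_lie, LinearMap.map_smulₛₗ, map_intCast]
    rfl

end act

variable {V : Type*} [AddCommGroup V] [Module ℂ V] [FiniteDimensional ℂ V]
  {L : Type*} [LieRing L] [LieAlgebra ℂ L] [FiniteDimensional ℂ L] [IsKilling ℂ L]
  {H : LieSubalgebra ℂ L} [H.IsCartanSubalgebra] [LieRingModule L V] [LieModule ℂ L V]
  {b : (rootSystem H).Base} {es fs : H.root → L}

omit [FiniteDimensional ℂ V] in
/-- A subspace stable under the generators is trivial. -/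
private lemma stab
    (hirr : ∀ W : Submodule ℂ V, (∀ x : L, ∀ u ∈ W, ⁅x, u⁆ ∈ W) → W = ⊥ ∨ W = ⊤)
    (hgen : ∀ M : LieSubalgebra ℂ L, (∀ i ∈ b.support, es i ∈ M) → (∀ i ∈ b.support, fs i ∈ M) → M = ⊤)
    (W : Submodule ℂ V) (he : ∀ i ∈ b.support, ∀ u ∈ W, ⁅es i, u⁆ ∈ W)
    (hf : ∀ i ∈ b.support, ∀ u ∈ W, ⁅fs i, u⁆ ∈ W) : W = ⊥ ∨ W = ⊤ := by
  let M : LieSubalgebra ℂ L :=
    { carrier := {x | ∀ u ∈ W, ⁅x, u⁆ ∈ W}
      add_mem' := by
        intro x y hx hy u hu
        rw [add_lie]
        exact W.add_mem (hx u hu) (hy u hu)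
      zero_mem' := by
        intro u _
        rw [zero_lie]
        exact W.zero_mem
      smul_mem' := by
        intro c x hx u hu
        rw [smul_lie]
        exact W.smul_mem c (hx u hu)
      lie_mem' := by
        intro x y hx hy u hu
        rw [lie_lie]
        exact W.sub_mem (hx _ (hy u hu)) (hy _ (hx u hu)) }
  have hM : M = ⊤ := hgen M (fun i hi => he i hi) (fun i hi => hf i hi)
  apply hirr W
  intro x
  have hx : x ∈ M := by
    rw [hM]
    trivial
  exact hx

/-- CF-2: the Hermitian form. -/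
theorem exists_HF [Nontrivial V]
    (hirr : ∀ W : Submodule ℂ V, (∀ x : L, ∀ u ∈ W, ⁅x, u⁆ ∈ W) → W = ⊥ ∨ W = ⊤)
    (G : Gen b es fs)
    (hgen : ∀ M : LieSubalgebra ℂ L, (∀ i ∈ b.support, es i ∈ M) → (∀ i ∈ b.support, fs i ∈ M) → M = ⊤)
    {I : Type*} [Fintype I] (B : WB (V := V) H I)
    (hint : ∀ i (α : H.root), ∃ a : ℤ, B.w i (coroot α.1) = (a : ℂ))
    {c : I → ℤ} (hc : ∀ i, B.w i (rho2 b) = (c i : ℂ)) {t : I} (ht : ∀ i, c i ≤ c t) :
    ∃ S : V →ₗ[ℂ] V →ₗ⋆[ℂ] ℂ, HF b es fs S ∧ S (B.v t) (B.v t) = 1 := by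
  classical
  -- the heights of weights change by `2` under the simple root vectors
  have hce : ∀ j ∈ b.support, ∀ i k, B.v.repr ⁅es j, B.v i⁆ k ≠ 0 → c k = 2 + c i := by
    intro j hj i k hk
    have h1 := B.coord_root (G.me j hj) hk (rho2 b)
    rw [hc, hc, root_rho, RootPairing.Base.height_one_of_mem_support hj] at h1
    have h2 : ((c k : ℤ) : ℂ) = ((2 + c i : ℤ) : ℂ) := by
      rw [h1]
      push_cast
      ring
    exact Int.cast_injective h2
  have hcf : ∀ j ∈ b.support, ∀ i k, B.v.repr ⁅fs j, B.v i⁆ k ≠ 0 → c k = c i - 2 := by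
    intro j hj i k hk
    have h0 : ⁅((rho2 b : H) : L), ⁅fs j, B.v i⁆⁆ =
        (-(j.1 (rho2 b)) + B.w i (rho2 b)) • ⁅fs j, B.v i⁆ := by
      have h2 : ⁅((rho2 b : H) : L), fs j⁆ = (-(j.1 : Weight ℂ H L)) (rho2 b) • fs j :=
        lie_eq_smul_of_mem_rootSpace (G.mf j hj) _
      rw [leibniz_lie, h2, B.lie_v, smul_lie, lie_smul, ← add_smul, Weight.coe_neg, Pi.neg_apply]
    have h1 := B.coord h0 hk
    rw [hc, hc, root_rho, RootPairing.Base.height_one_of_mem_support hj] at h1
    have h2 : ((c k : ℤ) : ℂ) = ((c i - 2 : ℤ) : ℂ) := by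
      rw [h1]
      push_cast
      ring
    exact Int.cast_injective h2
  -- the top vector is killed by the positive simple root vectors
  have het : ∀ j ∈ b.support, ⁅es j, B.v t⁆ = 0 := by
    intro j hj
    apply B.v.repr.injective
    ext k
    rw [map_zero, Finsupp.zero_apply]
    by_contra hk
    have h1 := hce j hj t k hk
    have h2 := ht k
    omega
  -- and the top coordinate vanishes on the images of the negative ones
  have hft : ∀ j ∈ b.support, ∀ v : V, B.v.coord t ⁅fs j, v⁆ = 0 := by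
    intro j hj v
    have h1 : (B.v.coord t) ∘ₗ (toEnd ℂ L V (fs j)) = 0 := by
      apply B.v.ext
      intro k
      rw [LinearMap.comp_apply, LinearMap.zero_apply, Basis.coord_apply, toEnd_apply_apply]
      by_contra hk
      have h2 := hcf j hj k t hk
      have h3 := ht k
      omega
    exact LinearMap.congr_fun h1 v
  -- the diagonal element
  let ε : V →ₗ⋆[ℂ] ℂ :=
    { toFun := fun v => starRingEnd ℂ (B.v.coord t v)
      map_add' := by
        intro v w
        rw [map_add, map_add]
      map_smul' := by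
        intro a v
        rw [map_smul, smul_eq_mul, map_mul]
        rfl }
  have hε : ∀ v, ε v = starRingEnd ℂ (B.v.coord t v) := fun v => rfl
  have hεt : ε (B.v t) = 1 := by
    rw [hε, Basis.coord_apply, Basis.repr_self, Finsupp.single_eq_same, map_one]
  let p0 : V × (V →ₗ⋆[ℂ] ℂ) := (B.v t, ε)
  let F : Set (Submodule ℂ (V × (V →ₗ⋆[ℂ] ℂ))) := {W | p0 ∈ W ∧ ∀ j ∈ b.support,
    ∀ p ∈ W, ac V (fs j) (es j) p ∈ W}
  let U : Submodule ℂ (V × (V →ₗ⋆[ℂ] ℂ)) := sInf F
  have hU0 : p0 ∈ U := by
    rw [Submodule.mem_sInf]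
    exact fun W hW => hW.1
  have hUf : ∀ j ∈ b.support, ∀ p ∈ U, ac V (fs j) (es j) p ∈ U := by
    intro j hj p hp
    rw [Submodule.mem_sInf] at hp ⊢
    exact fun W hW => hW.2 j hj p (hp W hW)
  -- stable under the coroots
  have hUh : ∀ i ∈ b.support, ∀ p ∈ U,
      ac V ((coroot i.1 : H) : L) ((coroot i.1 : H) : L) p ∈ U := by
    let W0 : Submodule ℂ (V × (V →ₗ⋆[ℂ] ℂ)) :=
      { carrier := {p | p ∈ U ∧ ∀ i ∈ b.support,
          ac V ((coroot i.1 : H) : L) ((coroot i.1 : H) : L) p ∈ U}
        add_mem' := by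
          rintro p q ⟨hp, hp'⟩ ⟨hq, hq'⟩
          exact ⟨U.add_mem hp hq, fun i hi => by rw [map_add]; exact U.add_mem (hp' i hi) (hq' i hi)⟩
        zero_mem' := ⟨U.zero_mem, fun i _ => by rw [map_zero]; exact U.zero_mem⟩
        smul_mem' := by
          rintro a p ⟨hp, hp'⟩
          exact ⟨U.smul_mem a hp, fun i hi => by rw [map_smul]; exact U.smul_mem a (hp' i hi)⟩ }
    have hW0 : W0 ∈ F := by
      refine ⟨⟨hU0, ?_⟩, ?_⟩
      · intro i _
        obtain ⟨a, ha⟩ := hint t i
        have h1 : ac V ((coroot i.1 : H) : L) ((coroot i.1 : H) : L) p0 = (a : ℂ) • p0 := by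
          apply Prod.ext
          · rw [ac_fst, B.lie_v t, ha]
            rfl
          · apply LinearMap.ext
            intro v
            rw [ac_snd]
            change starRingEnd ℂ (B.v.coord t ⁅((coroot i.1 : H) : L), v⁆) =
              (a : ℂ) • starRingEnd ℂ (B.v.coord t v)
            have h2 : (B.v.coord t) ∘ₗ (toEnd ℂ L V ((coroot i.1 : H) : L)) =
                (a : ℂ) • B.v.coord t := by
              apply B.v.ext
              intro k
              rw [LinearMap.comp_apply, LinearMap.smul_apply, toEnd_apply_apply, B.lie_v, map_smul,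
                Basis.coord_apply, Basis.repr_self]
              by_cases hk : k = t
              · rw [hk, ha]
              · rw [Finsupp.single_eq_of_ne (Ne.symm hk), smul_zero, smul_zero]
            have h3 := LinearMap.congr_fun h2 v
            rw [LinearMap.comp_apply, LinearMap.smul_apply, toEnd_apply_apply] at h3
            rw [h3, smul_eq_mul, map_mul, map_intCast, smul_eq_mul]
        rw [h1]
        exact U.smul_mem _ hU0
      · rintro j hj p ⟨hp, hp'⟩
        refine ⟨hUf j hj p hp, fun i hi => ?_⟩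
        rw [ac_comm]
        refine U.add_mem (hUf j hj _ (hp' i hi)) ?_
        obtain ⟨m, hm⟩ : ∃ m : ℤ, j.1 (coroot i.1) = (m : ℂ) :=
          ⟨_, apply_coroot_eq_cast i.1 j.1⟩
        have h1 : ⁅((coroot i.1 : H) : L), fs j⁆ = ((-m : ℤ) : ℂ) • fs j := by
          have h2 : ⁅((coroot i.1 : H) : L), fs j⁆ = (-(j.1 : Weight ℂ H L)) (coroot i.1) • fs j :=
            lie_eq_smul_of_mem_rootSpace (G.mf j hj) _
          rw [h2, Weight.coe_neg, Pi.neg_apply, hm, Int.cast_neg]
        have h2 : ⁅es j, ((coroot i.1 : H) : L)⁆ = ((-m : ℤ) : ℂ) • es j := by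
          rw [← lie_skew, lie_root (G.me j hj), hm, Int.cast_neg, neg_smul]
        rw [h1, h2, ac_int]
        exact U.smul_mem _ (hUf j hj p hp)
    have hle : U ≤ W0 := sInf_le hW0
    intro i hi p hp
    exact (hle hp).2 i hi
  -- stable under the positive simple root vectors
  have hUe : ∀ i ∈ b.support, ∀ p ∈ U, ac V (es i) (fs i) p ∈ U := by
    let W0 : Submodule ℂ (V × (V →ₗ⋆[ℂ] ℂ)) :=
      { carrier := {p | p ∈ U ∧ ∀ i ∈ b.support, ac V (es i) (fs i) p ∈ U}
        add_mem' := by
          rintro p q ⟨hp, hp'⟩ ⟨hq, hq'⟩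
          exact ⟨U.add_mem hp hq, fun i hi => by rw [map_add]; exact U.add_mem (hp' i hi) (hq' i hi)⟩
        zero_mem' := ⟨U.zero_mem, fun i _ => by rw [map_zero]; exact U.zero_mem⟩
        smul_mem' := by
          rintro a p ⟨hp, hp'⟩
          exact ⟨U.smul_mem a hp, fun i hi => by rw [map_smul]; exact U.smul_mem a (hp' i hi)⟩ }
    have hW0 : W0 ∈ F := by
      refine ⟨⟨hU0, ?_⟩, ?_⟩
      · intro i hi
        have h1 : ac V (es i) (fs i) p0 = 0 := by
          apply Prod.ext
          · exact het i hi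
          · apply LinearMap.ext
            intro v
            rw [ac_snd]
            change starRingEnd ℂ (B.v.coord t ⁅fs i, v⁆) = 0
            rw [hft i hi, map_zero]
        rw [h1]
        exact U.zero_mem
      · rintro j hj p ⟨hp, hp'⟩
        refine ⟨hUf j hj p hp, fun i hi => ?_⟩
        rw [ac_comm]
        refine U.add_mem (hUf j hj _ (hp' i hi)) ?_
        by_cases hij : i = j
        · subst hij
          rw [(G.tr i hi).lie_e_f]
          exact hUh i hi p hp
        · have h1 : ∀ {i j : H.root}, i ∈ b.support → j ∈ b.support → i ≠ j → ⁅es i, fs j⁆ = 0 := by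
            intro i j hi hj hij
            have h2 : ⁅es i, fs j⁆ ∈ rootSpace H ((i.1 : H → ℂ) + (-(j.1 : H → ℂ))) :=
              lie_mem_genWeightSpace_of_mem_genWeightSpace (G.me i hi) (G.mf j hj)
            rw [← sub_eq_add_neg, rootSpace_sub_eq_bot b hi hj hij, LieSubmodule.mem_bot] at h2
            exact h2
          rw [h1 hi hj hij, h1 hj hi (Ne.symm hij), ac_zero]
          exact U.zero_mem
    have hle : U ≤ W0 := sInf_le hW0
    intro i hi p hp
    exact (hle hp).2 i hi
  -- the coordinate condition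
  have hC : ∀ p ∈ U, B.v.coord t p.1 = p.2 (B.v t) := by
    let C : Submodule ℂ (V × (V →ₗ⋆[ℂ] ℂ)) :=
      { carrier := {p | B.v.coord t p.1 = p.2 (B.v t)}
        add_mem' := by
          intro p q hp hq
          change B.v.coord t (p.1 + q.1) = (p.2 + q.2) (B.v t)
          rw [map_add, LinearMap.add_apply]
          exact congrArg₂ (· + ·) hp hq
        zero_mem' := by
          change B.v.coord t 0 = (0 : V →ₗ⋆[ℂ] ℂ) (B.v t)
          rw [map_zero, LinearMap.zero_apply]
        smul_mem' := by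
          intro a p hp
          change B.v.coord t (a • p.1) = (a • p.2) (B.v t)
          rw [map_smul, LinearMap.smul_apply]
          exact congrArg (a • ·) hp }
    have hCF : C ∈ F := by
      refine ⟨?_, ?_⟩
      · change B.v.coord t (B.v t) = ε (B.v t)
        rw [hεt, Basis.coord_apply, Basis.repr_self, Finsupp.single_eq_same]
      · intro j hj p _
        change B.v.coord t ⁅fs j, p.1⁆ = p.2 ⁅es j, B.v t⁆
        rw [hft j hj, het j hj, map_zero]
    have hle : U ≤ C := sInf_le hCF
    exact fun u hu => hle hu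
  -- the projection to `V` is bijective
  have hinjU : ∀ φ : V →ₗ⋆[ℂ] ℂ, ((0 : V), φ) ∈ U → φ = 0 := by
    let D : Submodule ℂ V :=
      { carrier := {v | ∀ φ : V →ₗ⋆[ℂ] ℂ, ((0 : V), φ) ∈ U → φ v = 0}
        add_mem' := by
          intro v w hv hw φ hφ
          rw [map_add, hv φ hφ, hw φ hφ, add_zero]
        zero_mem' := fun φ _ => map_zero φ
        smul_mem' := by
          intro a v hv φ hφ
          rw [LinearMap.map_smulₛₗ, hv φ hφ, smul_zero] }
    have hD : D = ⊤ := by
      rcases stab hirr hgen D (by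
        intro i hi v hv φ hφ
        have h1 := hUf i hi _ hφ
        have h2 : (ac V (fs i) (es i) ((0 : V), φ)).1 = 0 := lie_zero _
        have h3 : ac V (fs i) (es i) ((0 : V), φ) = (0, (ac V (fs i) (es i) ((0 : V), φ)).2) :=
          Prod.ext h2 rfl
        rw [h3] at h1
        exact hv _ h1) (by
        intro i hi v hv φ hφ
        have h1 := hUe i hi _ hφ
        have h2 : (ac V (es i) (fs i) ((0 : V), φ)).1 = 0 := lie_zero _
        have h3 : ac V (es i) (fs i) ((0 : V), φ) = (0, (ac V (es i) (fs i) ((0 : V), φ)).2) :=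
          Prod.ext h2 rfl
        rw [h3] at h1
        exact hv _ h1) with h | h
      · exfalso
        have h1 : B.v t ∈ D := by
          intro φ hφ
          have h2 := hC _ hφ
          rw [← h2]
          exact map_zero _
        rw [h, Submodule.mem_bot] at h1
        exact B.v.ne_zero t h1
      · exact h
    intro φ hφ
    apply LinearMap.ext
    intro v
    have h1 : v ∈ D := by rw [hD]; trivial
    exact h1 φ hφ
  have hsurU : ∀ v : V, ∃ φ : V →ₗ⋆[ℂ] ℂ, (v, φ) ∈ U := by
    have h1 : U.map (LinearMap.fst ℂ V (V →ₗ⋆[ℂ] ℂ)) = ⊤ := by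
      rcases stab hirr hgen (U.map (LinearMap.fst ℂ V (V →ₗ⋆[ℂ] ℂ))) (by
        rintro i hi _ ⟨p, hp, rfl⟩
        exact ⟨ac V (es i) (fs i) p, hUe i hi p hp, rfl⟩) (by
        rintro i hi _ ⟨p, hp, rfl⟩
        exact ⟨ac V (fs i) (es i) p, hUf i hi p hp, rfl⟩) with h | h
      · exfalso
        have h2 : B.v t ∈ U.map (LinearMap.fst ℂ V (V →ₗ⋆[ℂ] ℂ)) := ⟨p0, hU0, rfl⟩
        rw [h, Submodule.mem_bot] at h2
        exact B.v.ne_zero t h2
      · exact h
    intro v
    have h2 : v ∈ U.map (LinearMap.fst ℂ V (V →ₗ⋆[ℂ] ℂ)) := by rw [h1]; trivial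
    obtain ⟨⟨a, φ⟩, hu, ha⟩ := h2
    have ha' : a = v := ha
    exact ⟨φ, ha' ▸ hu⟩
  have huniq : ∀ {v : V} {φ ψ : V →ₗ⋆[ℂ] ℂ}, (v, φ) ∈ U → (v, ψ) ∈ U → φ = ψ := by
    intro v φ ψ h1 h2
    have h3 := U.sub_mem h1 h2
    rw [Prod.mk_sub_mk, sub_self] at h3
    exact sub_eq_zero.mp (hinjU _ h3)
  choose T hT using hsurU
  let S : V →ₗ[ℂ] V →ₗ⋆[ℂ] ℂ :=
    { toFun := T
      map_add' := by
        intro u v
        have h1 := U.add_mem (hT u) (hT v)
        rw [Prod.mk_add_mk] at h1
        exact huniq (hT (u + v)) h1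
      map_smul' := by
        intro c u
        have h1 := U.smul_mem c (hT u)
        rw [Prod.smul_mk] at h1
        exact huniq (hT (c • u)) h1 }
  have hSU : ∀ u, (u, S u) ∈ U := hT
  have hSe : ∀ i ∈ b.support, ∀ u v, S ⁅es i, u⁆ v = S u ⁅fs i, v⁆ := by
    intro i hi u v
    have h1 := hUe i hi _ (hSU u)
    have h3 : ac V (es i) (fs i) (u, S u) = (⁅es i, u⁆, (ac V (es i) (fs i) (u, S u)).2) := rfl
    rw [h3] at h1
    have h4 := huniq (hSU ⁅es i, u⁆) h1
    rw [h4]
    rfl
  have hSf : ∀ i ∈ b.support, ∀ u v, S ⁅fs i, u⁆ v = S u ⁅es i, v⁆ := by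
    intro i hi u v
    have h1 := hUf i hi _ (hSU u)
    have h3 : ac V (fs i) (es i) (u, S u) = (⁅fs i, u⁆, (ac V (fs i) (es i) (u, S u)).2) := rfl
    rw [h3] at h1
    have h4 := huniq (hSU ⁅fs i, u⁆) h1
    rw [h4]
    rfl
  have hSt : S (B.v t) = ε := huniq (hSU (B.v t)) hU0
  have hSt1 : S (B.v t) (B.v t) = 1 := by rw [hSt, hεt]
  have hSv : ∀ v, S v (B.v t) = B.v.coord t v := fun v => (hC _ (hSU v)).symm
  refine ⟨S, ⟨?_, hSe, ?_⟩, hSt1⟩
  · -- Hermitian
    let A : Submodule ℂ V :=
      { carrier := {u | ∀ v, S v u = starRingEnd ℂ (S u v)}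
        add_mem' := by
          intro u w hu hw v
          rw [map_add, map_add, LinearMap.add_apply, map_add, hu v, hw v]
        zero_mem' := by
          intro v
          rw [map_zero, map_zero, LinearMap.zero_apply, map_zero]
        smul_mem' := by
          intro a u hu v
          rw [LinearMap.map_smulₛₗ, map_smul, LinearMap.smul_apply, smul_eq_mul, smul_eq_mul,
            map_mul, hu v] }
    have hA : A = ⊤ := by
      rcases stab hirr hgen A (by
        intro i hi u hu v
        rw [← hSf i hi v u, hSe i hi u v]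
        exact hu _) (by
        intro i hi u hu v
        rw [← hSe i hi v u, hSf i hi u v]
        exact hu _) with h | h
      · exfalso
        have h1 : B.v t ∈ A := by
          intro v
          rw [hSv, hSt, hε, Complex.conj_conj]
        rw [h, Submodule.mem_bot] at h1
        exact B.v.ne_zero t h1
      · exact h
    intro u v
    have h1 : u ∈ A := by rw [hA]; trivial
    exact h1 v
  · -- nondegenerate
    let N : Submodule ℂ V :=
      { carrier := {u | ∀ v, S u v = 0}
        add_mem' := by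
          intro u w hu hw v
          rw [map_add, LinearMap.add_apply, hu v, hw v, add_zero]
        zero_mem' := by
          intro v
          rw [map_zero, LinearMap.zero_apply]
        smul_mem' := by
          intro a u hu v
          rw [map_smul, LinearMap.smul_apply, hu v, smul_zero] }
    have hN : N = ⊥ := by
      rcases stab hirr hgen N (by
        intro i hi u hu v
        rw [hSe i hi u v]
        exact hu _) (by
        intro i hi u hu v
        rw [hSf i hi u v]
        exact hu _) with h | h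
      · exact h
      · exfalso
        have h1 : B.v t ∈ N := by rw [h]; trivial
        have h2 := h1 (B.v t)
        rw [hSt1] at h2
        exact one_ne_zero h2
    intro u hu
    have h1 : u ∈ N := hu
    rw [hN, Submodule.mem_bot] at h1
    exact h1

end CF
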